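import Pool.Agent.helper17.EXT.Spec

set_option autoImplicit false

open Finset

namespace Pool.Agent.EXT

open Pool.Agent.EXC

theorem GEF_inv {K : Type} [Field K] (k : Lm C6 K ≃ₗ[K] Lm C6 K) (v : Lm C6 K) : k (k⁻¹ v) = v := by
  have h : (k * k⁻¹) v = v := by
    rw [mul_inv_cancel]
    rfl
  exact h

theorem GEF_inv' {K : Type} [Field K] (k : Lm C6 K ≃ₗ[K] Lm C6 K) (v : Lm C6 K) : k⁻¹ (k v) = v := by
  have h : (k⁻¹ * k) v = v := by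
    rw [inv_mul_cancel]
    rfl
  exact h

theorem GEF_si {K : Type} [Field K] (τ : K ≃+* K) (c : K) (v : Lm C6 K) : si τ (c • v) = τ c • si τ v := by
  unfold si
  refine Prod.ext ?_ ?_
  · funext i
    show τ (c • v.1 (pn i)) = τ c • τ (v.1 (pn i))
    rw [smul_eq_mul, smul_eq_mul, map_mul]
  · funext γ
    show (sn γ.1 : K) * τ (cf (c • v) (pv γ.1)) = τ c • ((sn γ.1 : K) * τ (cf v (pv γ.1)))
    rw [cf_smul, map_mul, smul_eq_mul]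
    ring

/-- a factor between fixed vectors is fixed -/
theorem GEF_fix {K : Type} [Field K] (τ : K ≃+* K) {a b : Lm C6 K} {c : K} (ha : si τ a = a) (hb : si τ b = b)
    (ha0 : a ≠ 0) (h : b = c • a) : τ c = c := by
  have h1 : τ c • a = c • a := by
    rw [← h]
    conv_rhs => rw [← hb, h, GEF_si, ha]
  have h2 : (τ c - c) • a = 0 := by rw [sub_smul, h1, sub_self]
  rcases smul_eq_zero.1 h2 with h3 | h3
  · exact sub_eq_zero.1 h3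
  · exact absurd h3 ha0

theorem GEF (hRTF : RTF_stmt) (hWST : WST_stmt) (hWPS : WPS_stmt) (hESF : ESF_stmt) (hGFX : GFX_stmt) (hPCS : PCS_stmt) (hTFS : TFS_stmt) (hUNF : UNF_stmt) (hIMF : IMF_stmt) (hFXF : FXF_stmt) (hSGR : SGR_stmt) : GEF_stmt := by
  intro K _ τ hτ x hx hx1
  by_contra hcon
  obtain ⟨-, -, -, -, -, -, -, -, -, -, -, -, -, hLθ, -⟩ := hRTF
  have hθ : ip C6 th th = 2 := hLθ.1
  obtain ⟨hExE, hExF⟩ := hESF K τ hτ
  obtain ⟨im2, im3, im4, im5⟩ := hIMF K τ hτ x hx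
  obtain ⟨-, hgen, -, -, -, hGS⟩ := hSGR K τ hτ
  have hfix : ∀ (a b : Lm C6 K) (c : K), ExS τ a → ExS τ b → b = c • a → τ c = c ∧ c ≠ 0 := by
    intro a b c ha hb h
    refine ⟨GEF_fix τ (hExF a ha).2.2.1 (hExF b hb).2.2.1 (hExF a ha).2.1 h, ?_⟩
    rintro rfl
    exact (hExF b hb).2.1 (by rw [h, zero_smul])
  have hτi : ∀ c : K, τ c = c → τ c⁻¹ = c⁻¹ := by
    intro c hc
    rw [map_inv₀, hc]
  have H : ∀ a a' : Lm C6 K, ExS τ a → ExS τ a' → ImF τ x a a' → TpS τ a a' 1 ∨ TpS τ a a' 2 := by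
    intro a a' ha ha' him
    obtain ⟨m, hm1, hm2, hT⟩ := hPCS K τ hτ a a' ha ha'
    have h3 : ¬ (m = -2 ∨ m = -1 ∨ m = 0) := fun h => hcon ⟨a, a', m, ha, ha', him, hT, h⟩
    have h4 : m = 1 ∨ m = 2 := by omega
    rcases h4 with h4 | h4
    · exact Or.inl (h4 ▸ hT)
    · exact Or.inr (h4 ▸ hT)
  -- a point which is moved
  obtain ⟨a, ha, hna⟩ : ∃ a : Lm C6 K, ExS τ a ∧ ¬ ImF τ x a a := by
    by_contra hall
    refine hx1 ((hFXF K τ hτ).1 x fun a ha => ?_)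
    by_contra h
    exact hall ⟨a, ha, h⟩
  obtain ⟨a', ha', him⟩ := hx a ha
  have ht1 : TpS τ a a' 1 := by
    rcases H a a' ha ha' him with h | h
    · exact h
    · exfalso
      obtain ⟨c, hc⟩ := (hTFS K τ hτ a a' 2 h).2.2.2.2.2.1.1 rfl
      obtain ⟨hcf, hc0⟩ := hfix a a' c ha ha' hc
      have h2 := im4 a a' 1 c⁻¹ ha ha' (map_one τ) (hτi c hcf) one_ne_zero (inv_ne_zero hc0) him
      rw [one_smul, hc, smul_smul, inv_mul_cancel₀ hc0, one_smul] at h2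
      exact hna h2
  obtain ⟨k, hk, β, hLβ, hθβ, c, c', hcf, hcf', hc, hc', hka, hka'⟩ := ht1
  have hβ : ip C6 β β = 2 := hLβ.1
  have hβθ : ip C6 β th = 1 := by rw [ip_comm, hθβ]
  have hγ : ip C6 (th - β) (th - β) = 2 := (sub_root_iff hθ hβ).2 hθβ
  have hLγ : LR (th - β) := by
    refine ⟨hγ, ?_⟩
    have e : pv (th - β) = pv th - pv β := rfl
    rw [e, hLθ.2, hLβ.2]
  have hθγ : ip C6 th (th - β) = 1 := by rw [ip_sub_right, hθ, hθβ]; norm_num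
  have hβγ : ip C6 β (th - β) = -1 := by rw [ip_sub_right, hβθ, hβ]; norm_num
  have hsum : β + (th - β) = th := by abel
  have hβ0 : β ≠ 0 := by
    rintro rfl
    rw [ip_zero_left] at hβ
    norm_num at hβ
  have hne : th - β ≠ th := fun h => hβ0 (by rwa [sub_eq_self] at h)
  -- the main step
  have key : ∀ k ∈ GS τ, ImF τ x (k⁻¹ (E C6 th : Lm C6 K)) (k⁻¹ (E C6 β : Lm C6 K)) → ∀ B' : Lm C6 K, ExS τ B' →
      ImF τ x (k⁻¹ (E C6 (th - β) : Lm C6 K)) B' → ∃ κ : K, B' = κ • k⁻¹ (E C6 th : Lm C6 K) := by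
    intro k hk imA B' hB' imB
    have hk' : k⁻¹ ∈ GS τ := (GS τ).inv_mem hk
    have hA : ExS τ (k⁻¹ (E C6 th : Lm C6 K)) := (hExF _ (hExE th hLθ)).2.2.2.1 _ hk'
    have hA' : ExS τ (k⁻¹ (E C6 β : Lm C6 K)) := (hExF _ (hExE β hLβ)).2.2.2.1 _ hk'
    have hB : ExS τ (k⁻¹ (E C6 (th - β) : Lm C6 K)) := (hExF _ (hExE (th - β) hLγ)).2.2.2.1 _ hk'
    have au := (hGS k hk).2.1
    have t1 : TpS τ (k⁻¹ (E C6 th : Lm C6 K)) (k⁻¹ (E C6 (th - β) : Lm C6 K)) 1 :=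
      ⟨k, hk, th - β, hLγ, hθγ, 1, 1, map_one τ, map_one τ, one_ne_zero, one_ne_zero, by rw [GEF_inv, one_smul],
        by rw [GEF_inv, one_smul]⟩
    have t2 : TpS τ (k⁻¹ (E C6 β : Lm C6 K)) B' 1 := im5 _ _ _ _ hA' hB' imA imB t1
    obtain ⟨w, hw1, hw2⟩ := (hTFS K τ hτ _ _ 1 t2).2.2.2.2.2.2.2.1 rfl
    have e1 : k B' = br C6 (E C6 β : Lm C6 K) (k w) := by rw [hw2, au.br, GEF_inv]
    have e2 : fm C6 (E C6 β : Lm C6 K) (k w) = 0 := by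
      have h := au.fm (k⁻¹ (E C6 β : Lm C6 K)) w
      rw [GEF_inv] at h
      rw [h, hw1]
    rcases H _ _ hB hB' imB with t3 | t3
    · obtain ⟨v, hv1, hv2⟩ := (hTFS K τ hτ _ _ 1 t3).2.2.2.2.2.2.2.1 rfl
      have e3 : k B' = br C6 (E C6 (th - β) : Lm C6 K) (k v) := by rw [hv2, au.br, GEF_inv]
      have e4 : fm C6 (E C6 (th - β) : Lm C6 K) (k v) = 0 := by
        have h := au.fm (k⁻¹ (E C6 (th - β) : Lm C6 K)) v
        rw [GEF_inv] at h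
        rw [h, hv1]
      obtain ⟨κ, hκ⟩ := f_WUQ 6 C6 K β (th - β) hβ hγ hβγ 1 1 (k w) (k v) (k B') (by rw [one_smul]; exact e2)
        (by rw [one_smul]; exact e4) (by rw [one_smul]; exact e1) (by rw [one_smul]; exact e3)
      rw [hsum] at hκ
      refine ⟨κ, ?_⟩
      rw [← map_smul, ← hκ, GEF_inv']
    · exfalso
      obtain ⟨c, hc⟩ := (hTFS K τ hτ _ _ 2 t3).2.2.2.2.2.1.1 rfl
      have hc0 : c ≠ 0 := by
        rintro rfl
        exact (hExF B' hB').2.1 (by rw [hc, zero_smul])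
      have e5 : k B' = c • (E C6 (th - β) : Lm C6 K) := by rw [hc, map_smul, GEF_inv]
      have e6 : (E C6 (th - β) : Lm C6 K) = br C6 (E C6 β : Lm C6 K) (c⁻¹ • k w) := by
        rw [br_smul_right, ← e1, e5, smul_smul, inv_mul_cancel₀ hc0, one_smul]
      have e7 : fm C6 (E C6 β : Lm C6 K) (c⁻¹ • k w) = 0 := by rw [fm_smul_right, e2, mul_zero]
      have e8 : fm C6 (E C6 (th - β) : Lm C6 K) (ht C6 β) = 0 := fm_E_H C6 hγ _
      have e9 : (E C6 (th - β) : Lm C6 K) = br C6 (E C6 (th - β) : Lm C6 K) (ht C6 β) := by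
        have h := br_E_H (F := K) C6 hγ (fun i => (β i : K))
        have h' : (ht C6 β : Lm C6 K) = ((fun i => (β i : K)), 0) := rfl
        rw [h', h, ev_coroot, ip_comm, hβγ]
        simp
      obtain ⟨κ, hκ⟩ := f_WUQ 6 C6 K β (th - β) hβ hγ hβγ 1 1 (c⁻¹ • k w) (ht C6 β) (E C6 (th - β)) (by rw [one_smul]; exact e7)
        (by rw [one_smul]; exact e8) (by rw [one_smul]; exact e6) (by rw [one_smul]; exact e9)
      rw [hsum] at hκ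
      have h10 := congrArg (fun y : Lm C6 K => cf y (th - β)) hκ
      simp only [cf_smul] at h10
      rw [cf_E C6 hγ, cf_E C6 hθ, if_pos rfl, if_neg hne, mul_zero] at h10
      exact one_ne_zero h10
  have hk' : k⁻¹ ∈ GS τ := (GS τ).inv_mem hk
  -- the first pair
  have ea : c⁻¹ • a = k⁻¹ (E C6 th : Lm C6 K) := by
    rw [← GEF_inv' k a, hka, map_smul, smul_smul, inv_mul_cancel₀ hc, one_smul]
  have ea' : c'⁻¹ • a' = k⁻¹ (E C6 β : Lm C6 K) := by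
    rw [← GEF_inv' k a', hka', map_smul, smul_smul, inv_mul_cancel₀ hc', one_smul]
  have imA : ImF τ x (k⁻¹ (E C6 th : Lm C6 K)) (k⁻¹ (E C6 β : Lm C6 K)) := by
    rw [← ea, ← ea']
    exact im4 a a' c⁻¹ c'⁻¹ ha ha' (hτi c hcf) (hτi c' hcf') (inv_ne_zero hc) (inv_ne_zero hc') him
  have hA : ExS τ (k⁻¹ (E C6 th : Lm C6 K)) := (hExF _ (hExE th hLθ)).2.2.2.1 _ hk'
  have hB : ExS τ (k⁻¹ (E C6 (th - β) : Lm C6 K)) := (hExF _ (hExE (th - β) hLγ)).2.2.2.1 _ hk'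
  obtain ⟨B', hB', imB⟩ := hx _ hB
  obtain ⟨κ, hκ⟩ := key k hk imA B' hB' imB
  -- the second pair
  obtain ⟨h, hhG, hh⟩ := hgen β 1 hLβ (map_one τ)
  obtain ⟨ac1, ac2, -⟩ := f_ACT 6 C6 K β 1 hβ
  have f1 : h (E C6 th : Lm C6 K) = E C6 th := by
    rw [hh, ac1 th hθ (by rw [hβθ]; norm_num)]
  have f2 : h (E C6 β : Lm C6 K) = E C6 β := by
    rw [hh, ac1 β hβ (by rw [hβ]; norm_num)]
  have f3 : h (E C6 (th - β) : Lm C6 K) = E C6 (th - β) + ((sg C6 β (th - β) : ℤ) : K) • E C6 th := by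
    rw [hh, ac2 (th - β) hγ hβγ, one_mul, hsum]
  have g1 : ∀ v : Lm C6 K, (h⁻¹ * k)⁻¹ v = k⁻¹ (h v) := by
    intro v
    rw [mul_inv_rev, inv_inv]
    rfl
  have hk2 : h⁻¹ * k ∈ GS τ := (GS τ).mul_mem ((GS τ).inv_mem hhG) hk
  have imA2 : ImF τ x ((h⁻¹ * k)⁻¹ (E C6 th : Lm C6 K)) ((h⁻¹ * k)⁻¹ (E C6 β : Lm C6 K)) := by
    rw [g1, g1, f1, f2]
    exact imA
  have hB2 : ExS τ ((h⁻¹ * k)⁻¹ (E C6 (th - β) : Lm C6 K)) :=
    (hExF _ (hExE (th - β) hLγ)).2.2.2.1 _ ((GS τ).inv_mem hk2)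
  obtain ⟨B2', hB2', imB2⟩ := hx _ hB2
  obtain ⟨κ2, hκ2⟩ := key (h⁻¹ * k) hk2 imA2 B2' hB2' imB2
  rw [g1, f1] at hκ2
  obtain ⟨hκf, hκ0⟩ := hfix _ B' κ hA hB' hκ
  obtain ⟨hκf2, hκ20⟩ := hfix _ B2' κ2 hA hB2' hκ2
  have i1 := im4 _ B' 1 κ⁻¹ hB hB' (map_one τ) (hτi κ hκf) one_ne_zero (inv_ne_zero hκ0) imB
  rw [one_smul, hκ, smul_smul, inv_mul_cancel₀ hκ0, one_smul] at i1
  have i2 := im4 _ B2' 1 κ2⁻¹ hB2 hB2' (map_one τ) (hτi κ2 hκf2) one_ne_zero (inv_ne_zero hκ20) imB2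
  rw [one_smul, hκ2, smul_smul, inv_mul_cancel₀ hκ20, one_smul] at i2
  obtain ⟨d, -, hd0, hd⟩ := im2 _ _ _ hB hB2 hA i1 i2
  rw [g1, f3] at hd
  have j1 := congrArg (fun y => k y) hd
  simp only [GEF_inv, map_smul] at j1
  have j2 := congrArg (fun y : Lm C6 K => cf y th) j1
  simp only [cf_smul, cf_add] at j2
  rw [cf_E C6 hγ, cf_E C6 hθ, if_pos rfl, if_neg (Ne.symm hne), zero_add, mul_zero, mul_one] at j2
  exact sg_ne_zero C6 _ _ j2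

end Pool.Agent.EXT
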