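import Pool.Agent.helper17.EXT.Spec

/-!
# Row ft:NKF of project EXT (MP_561ff4_al): an element which fixes all long root points is the identity
-/

set_option autoImplicit false

open Finset

namespace Pool.Agent.EXT

open Pool.Agent.EXC

theorem NKF_f1 : ∀ α ∈ RL, pv α = α → ∃ β ∈ RL, pv β = β ∧ ip C6 β α = -1 := by decide +kernel

theorem NKF_f2 : ∀ η ∈ RL, pv η ≠ η → ∃ β ∈ RL, pv β = β ∧ ip C6 η β = 1 := by decide +kernel

/-- differences and sums of vectors fixed by the symmetry -/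
theorem NKF_pvs (hRTF : RTF_stmt) {α β : Fin 6 → ℤ} (hα : pv α = α) (hβ : pv β = β) :
    pv (α - β) = α - β ∧ pv (α + β) = α + β ∧ pv (-α) = -α := by
  refine ⟨?_, ?_, ?_⟩
  · rw [sub_eq_add_neg, hRTF.2.2.1, hRTF.2.2.2.1, hα, hβ]
  · rw [hRTF.2.2.1, hα, hβ]
  · rw [hRTF.2.2.2.1, hα]

/-- an element with all long root points fixed fixes the long root vectors -/
theorem NKF_long (hRTF : RTF_stmt) (hSGR : SGR_stmt) (hESF : ESF_stmt) (hLST : LST_stmt) {K : Type} [Field K]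
    (τ : K ≃+* K) (hτ : ∀ x, τ (τ x) = x) (g : Lm C6 K ≃ₗ[K] Lm C6 K) (hg : g ∈ GS τ)
    (hfix : ∀ a : Lm C6 K, ExS τ a → ∃ κ : K, g a = κ • a) :
    ∀ α, LR α → g (E C6 α) = (E C6 α : Lm C6 K) := by
  have hcA : Au C6 g := ((hSGR K τ hτ).2.2.2.2.2 g hg).2.1
  obtain ⟨E1, E2⟩ := hESF K τ hτ
  have hk : ∀ α : Fin 6 → ℤ, LR α → ∃ κ : K, κ ≠ 0 ∧ g (E C6 α) = κ • (E C6 α : Lm C6 K) := by
    intro α hα
    obtain ⟨κ, hκ⟩ := hfix _ (E1 α hα)
    refine ⟨κ, ?_, hκ⟩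
    intro h0
    rw [h0, zero_smul] at hκ
    have h1 : (E C6 α : Lm C6 K) = 0 := by
      apply g.injective
      rw [hκ, map_zero]
    exact E_ne_zero C6 hα.1 h1
  choose! κ hκ0 hκ using hk
  -- product one
  have h1 : ∀ α β : Fin 6 → ℤ, LR α → LR β → ip C6 α β = 1 → κ α = κ β := by
    intro α β hα hβ hαβ
    have hγ : ip C6 (α - β) (α - β) = 2 := (sub_root_iff hα.1 hβ.1).2 hαβ
    have hγL : LR (α - β) := ⟨hγ, (NKF_pvs hRTF hα.2 hβ.2).1⟩
    have hγβ : ip C6 (α - β) β = -1 := by rw [ip_sub_left, hαβ, hβ.1]; norm_num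
    have hne : α ≠ β := by
      intro e
      rw [e, hβ.1] at hαβ
      omega
    obtain ⟨u, hu, huX⟩ := (hSGR K τ hτ).2.1 (α - β) 1 hγL (map_one τ)
    have h2 := (f_ACT 6 C6 K (α - β) 1 hγ).2.1 β hβ.1 hγβ
    rw [sub_add_cancel, one_mul, ← huX (E C6 β)] at h2
    have h3 : ExS τ (u (E C6 β) : Lm C6 K) := (E2 _ (E1 β hβ)).2.2.2.1 u hu
    obtain ⟨k, hk⟩ := hfix _ h3
    rw [h2, map_add, map_smul, hκ _ hα, hκ _ hβ, smul_add, smul_smul, smul_smul] at hk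
    have e1 := congrArg (fun x => cf x β) hk
    have e2 := congrArg (fun x => cf x α) hk
    simp only [cf_add, cf_smul, cf_E C6 hα.1, cf_E C6 hβ.1, if_neg hne, if_neg hne.symm, if_true,
      mul_one, mul_zero, add_zero, zero_add] at e1 e2
    have hs := sg_ne_zero (F := K) C6 (α - β) β
    rw [e1]
    apply mul_left_cancel₀ hs
    rw [e2, mul_comm]
  -- product minus one
  have h2 : ∀ α β : Fin 6 → ℤ, LR α → LR β → ip C6 α β = -1 → κ β = 1 := by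
    intro α β hα hβ hαβ
    have hs : ip C6 (α + β) (α + β) = 2 := (add_root_iff hα.1 hβ.1).2 hαβ
    have hsL : LR (α + β) := ⟨hs, (NKF_pvs hRTF hα.2 hβ.2).2.1⟩
    have hne : β ≠ -α := by
      intro e
      rw [e, ip_neg_right, hα.1] at hαβ
      omega
    have e0 := br_E_E (F := K) C6 hα.1 hβ.1
    rw [if_neg hne, sub_zero] at e0
    have e1 := hcA.br (E C6 α) (E C6 β)
    rw [hκ _ hα, hκ _ hβ, br_smul_left, br_smul_right, e0, map_smul, hκ _ hsL] at e1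
    have e2 := congrArg (fun x => cf x (α + β)) e1
    simp only [cf_smul, cf_E C6 hs, if_true, mul_one] at e2
    have hsg := sg_ne_zero (F := K) C6 α β
    have e3 : κ (α + β) = κ α * κ β := by
      apply mul_left_cancel₀ hsg
      rw [e2]
      ring
    have e4 : κ (α + β) = κ α := by
      refine h1 _ _ hsL hα ?_
      rw [ip_add_left, hα.1, ip_comm C6 β α, hαβ]
      norm_num
    rw [e4] at e3
    have e5 : κ α * 1 = κ α * κ β := by rw [mul_one]; exact e3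
    exact (mul_left_cancel₀ (hκ0 _ hα) e5).symm
  intro α hα
  obtain ⟨β, hβ, hβ1, hβ2⟩ := NKF_f1 α ((hLST α).1 hα.1) hα.2
  rw [hκ _ hα, h2 β α ⟨(hLST β).2 hβ, hβ1⟩ hα hβ2, one_smul]

/-- all conjugates of long root vectors are fixed -/
theorem NKF_all (hRTF : RTF_stmt) (hSGR : SGR_stmt) (hESF : ESF_stmt) (hLST : LST_stmt) {K : Type} [Field K]
    (τ : K ≃+* K) (hτ : ∀ x, τ (τ x) = x) (g : Lm C6 K ≃ₗ[K] Lm C6 K) (hg : g ∈ GS τ)
    (hfix : ∀ a : Lm C6 K, ExS τ a → ∃ κ : K, g a = κ • a) (h : Lm C6 K ≃ₗ[K] Lm C6 K) (hh : h ∈ GS τ) :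
    ∀ β, LR β → g (h (E C6 β)) = (h (E C6 β) : Lm C6 K) := by
  intro β hβ
  have hE := hESF K τ hτ
  have h1 : ∀ x : Lm C6 K, (h⁻¹ * g * h) x = h⁻¹ (g (h x)) := fun x => rfl
  have h2 : ∀ x : Lm C6 K, h (h⁻¹ x) = x := fun x => LinearEquiv.apply_symm_apply h x
  have h3 : ∀ x : Lm C6 K, h⁻¹ (h x) = x := fun x => LinearEquiv.symm_apply_apply h x
  have h4 := NKF_long hRTF hSGR hESF hLST τ hτ (h⁻¹ * g * h) (mul_mem (mul_mem (inv_mem hh) hg) hh) (by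
    intro a ha
    obtain ⟨κ, hκ⟩ := hfix (h a) ((hE.2 a ha).2.2.2.1 h hh)
    exact ⟨κ, by rw [h1, hκ, map_smul, h3]⟩) β hβ
  rw [h1] at h4
  rw [← h2 (g (h (E C6 β))), h4]

/-- the short root vectors of `LT` are fixed -/
theorem NKF_sh (hRTF : RTF_stmt) (hSGR : SGR_stmt) (hESF : ESF_stmt) (hACS : ACS_stmt) (hLST : LST_stmt) {K : Type}
    [Field K] (τ : K ≃+* K) (hτ : ∀ x, τ (τ x) = x) (g : Lm C6 K ≃ₗ[K] Lm C6 K) (hg : g ∈ GS τ)
    (hfix : ∀ a : Lm C6 K, ExS τ a → ∃ κ : K, g a = κ • a) (η : Fin 6 → ℤ) (hη : SR η) (t : K) :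
    g (t • E C6 η + ((sn η : K) * τ t) • E C6 (pv η)) = (t • E C6 η + ((sn η : K) * τ t) • E C6 (pv η) : Lm C6 K) := by
  obtain ⟨β, hβ, hβ1, hβ2⟩ := NKF_f2 η ((hLST η).1 hη.1) hη.2
  have hβL : LR β := ⟨(hLST β).2 hβ, hβ1⟩
  obtain ⟨γ, hγ⟩ : ∃ γ, γ = η - β := ⟨_, rfl⟩
  have hη' : γ + β = η := by rw [hγ, sub_add_cancel]
  have hpγ : pv γ = pv η - β := by
    rw [hγ, sub_eq_add_neg, hRTF.2.2.1, hRTF.2.2.2.1, hβ1, sub_eq_add_neg]
  have hpη : pv γ + β = pv η := by rw [hpγ, sub_add_cancel]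
  have hγS : SR γ := by
    refine ⟨?_, ?_⟩
    · rw [hγ]
      exact (sub_root_iff hη.1 hβL.1).2 hβ2
    · intro e
      apply hη.2
      rw [← hpη, e, hη']
  have hγβ : ip C6 γ β = -1 := by rw [hγ, ip_sub_left, hβ2, hβL.1]; norm_num
  obtain ⟨g0, hg0, hS⟩ := (hSGR K τ hτ).1 γ t hγS
  obtain ⟨-, -, -, hA⟩ := hACS K τ hτ γ β hγS hβL
  obtain ⟨hL, hEq⟩ := (hA t g0 hS).2 hγβ
  have h1 := NKF_all hRTF hSGR hESF hLST τ hτ g hg hfix g0 hg0 β hβL
  have h2 := NKF_long hRTF hSGR hESF hLST τ hτ g hg hfix β hβL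
  have h3 := NKF_long hRTF hSGR hESF hLST τ hτ g hg hfix _ hL
  rw [hη', hpη] at hEq
  -- signs
  have s1 : sg C6 (pv γ) β * sg C6 γ β = sn η * sn γ := by
    have h4 := hRTF.2.2.2.2.2.2.2.2.2.2.2.1 γ β
    rw [hβ1, hη', hRTF.2.2.2.2.2.2.2.2.2.2.1 β hβ1, mul_one] at h4
    exact h4
  have s2 : sn γ * sn γ = 1 := by
    rcases hRTF.2.2.2.2.2.2.1 γ with h4 | h4 <;> rw [h4] <;> norm_num
  have s3 : sn γ * sg C6 (pv γ) β = sn η * sg C6 γ β := by
    have s4 := sg_mul_self C6 γ β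
    calc sn γ * sg C6 (pv γ) β = sn γ * (sg C6 (pv γ) β * sg C6 γ β) * sg C6 γ β := by
          rw [mul_assoc, mul_assoc, s4, mul_one]
      _ = sn γ * sn γ * (sn η * sg C6 γ β) := by rw [s1]; ring
      _ = sn η * sg C6 γ β := by rw [s2, one_mul]
  have s5 : (sn γ : K) * (sg C6 (pv γ) β : K) = (sn η : K) * (sg C6 γ β : K) := by
    exact_mod_cast congrArg (Int.cast : ℤ → K) s3
  obtain ⟨w, hw⟩ : ∃ w : Lm C6 K, w = (t * (sg C6 γ β : K)) • E C6 η + ((sn γ : K) * τ t * (sg C6 (pv γ) β : K)) • E C6 (pv η) :=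
    ⟨_, rfl⟩
  have h5 : g w = w := by
    have h6 : g0 (E C6 β) = E C6 β + w + (t * ((sn γ : K) * τ t) * (sg C6 (pv γ) β : K) * (sg C6 γ (pv η) : K)) •
        E C6 (γ + pv γ + β) := by
      rw [hEq, hw]
      abel
    rw [h6, map_add, map_add, map_smul, h2, h3] at h1
    exact add_left_cancel (add_right_cancel h1)
  have h7 : (t • E C6 η + ((sn η : K) * τ t) • E C6 (pv η) : Lm C6 K) = (sg C6 γ β : K) • w := by
    have h8 := sg_sq (F := K) C6 γ β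
    rw [hw, smul_add, smul_smul, smul_smul]
    congr 1
    · congr 1
      calc t = t * ((sg C6 γ β : K) * (sg C6 γ β : K)) := by rw [h8, mul_one]
        _ = _ := by ring
    · congr 1
      calc (sn η : K) * τ t = (sn η : K) * (sg C6 γ β : K) * (sg C6 γ β : K) * τ t := by
            rw [mul_assoc (sn η : K), h8, mul_one]
        _ = _ := by rw [← s5]; ring
  rw [h7, map_smul, h5]

/-- the coroots of long roots are fixed -/
theorem NKF_hl (hRTF : RTF_stmt) (hSGR : SGR_stmt) (hESF : ESF_stmt) (hLST : LST_stmt) {K : Type} [Field K]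
    (τ : K ≃+* K) (hτ : ∀ x, τ (τ x) = x) (g : Lm C6 K ≃ₗ[K] Lm C6 K) (hg : g ∈ GS τ)
    (hfix : ∀ a : Lm C6 K, ExS τ a → ∃ κ : K, g a = κ • a) (α : Fin 6 → ℤ) (hα : LR α) :
    g (ht C6 α) = (ht C6 α : Lm C6 K) := by
  have hcA : Au C6 g := ((hSGR K τ hτ).2.2.2.2.2 g hg).2.1
  have hn : LR (-α) := ⟨neg_root C6 hα.1, (NKF_pvs hRTF hα.2 hα.2).2.2⟩
  have e0 := br_E_E (F := K) C6 hα.1 hn.1
  have e00 : ip C6 (0 : Fin 6 → ℤ) 0 ≠ 2 := by simp
  rw [if_pos rfl, add_neg_cancel, E_eq_zero C6 e00, smul_zero, zero_sub] at e0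
  have e1 := hcA.br (E C6 α) (E C6 (-α))
  rw [NKF_long hRTF hSGR hESF hLST τ hτ g hg hfix α hα, NKF_long hRTF hSGR hESF hLST τ hτ g hg hfix _ hn, e0,
    map_neg] at e1
  exact neg_injective e1

/-- the bracket of `e_γ(t)` and `e_{-γ}(1)` -/
theorem NKF_br (hRTF : RTF_stmt) {K : Type} [Field K] (τ : K ≃+* K) (γ : Fin 6 → ℤ) (hγ : SR γ) (t : K) :
    br C6 (t • E C6 γ + ((sn γ : K) * τ t) • E C6 (pv γ) : Lm C6 K)
      ((1 : K) • E C6 (-γ) + ((sn (-γ) : K) * τ 1) • E C6 (pv (-γ))) = -(t • ht C6 γ + τ t • ht C6 (pv γ)) := by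
  have hp : ip C6 (pv γ) (pv γ) = 2 := by rw [hRTF.1, hγ.1]
  have hn : ip C6 (-γ) (-γ) = 2 := neg_root C6 hγ.1
  have hnp : ip C6 (-pv γ) (-pv γ) = 2 := neg_root C6 hp
  have h0 : ip C6 γ (pv γ) = 0 := hRTF.2.2.2.2.2.2.2.2.2.2.2.2.1 γ hγ
  have e00 : ip C6 (0 : Fin 6 → ℤ) 0 ≠ 2 := by simp
  have b1 : br C6 (E C6 γ) (E C6 (-γ)) = (-ht C6 γ : Lm C6 K) := by
    rw [br_E_E C6 hγ.1 hn, if_pos rfl, add_neg_cancel, E_eq_zero C6 e00, smul_zero, zero_sub]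
  have b2 : br C6 (E C6 (pv γ)) (E C6 (-pv γ)) = (-ht C6 (pv γ) : Lm C6 K) := by
    rw [br_E_E C6 hp hnp, if_pos rfl, add_neg_cancel, E_eq_zero C6 e00, smul_zero, zero_sub]
  have b3 : br C6 (E C6 γ) (E C6 (-pv γ)) = (0 : Lm C6 K) := by
    have h1 : ip C6 (γ + -pv γ) (γ + -pv γ) ≠ 2 := by
      intro h2
      have h3 := (add_root_iff hγ.1 hnp).1 h2
      rw [ip_neg_right, h0] at h3
      omega
    have h2 : -pv γ ≠ -γ := fun h => hγ.2 (neg_injective h)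
    rw [br_E_E C6 hγ.1 hnp, if_neg h2, E_eq_zero C6 h1, smul_zero, sub_zero]
  have b4 : br C6 (E C6 (pv γ)) (E C6 (-γ)) = (0 : Lm C6 K) := by
    have h1 : ip C6 (pv γ + -γ) (pv γ + -γ) ≠ 2 := by
      intro h2
      have h3 := (add_root_iff hp hn).1 h2
      rw [ip_neg_right, ip_comm, h0] at h3
      omega
    have h2 : -γ ≠ -pv γ := fun h => hγ.2 (neg_injective h).symm
    rw [br_E_E C6 hp hn, if_neg h2, E_eq_zero C6 h1, smul_zero, sub_zero]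
  have s2 : (sn γ : K) * (sn γ : K) = 1 := by
    rcases hRTF.2.2.2.2.2.2.1 γ with h4 | h4 <;> rw [h4] <;> norm_num
  rw [hRTF.2.2.2.2.2.2.2.2.1, hRTF.2.2.2.1, map_one, mul_one, one_smul, br_add_left, br_add_right, br_add_right,
    br_smul_left, br_smul_left, br_smul_left, br_smul_left, br_smul_right, br_smul_right, b1, b2, b3, b4, smul_zero,
    smul_zero, smul_zero, add_zero, zero_add, smul_neg, smul_neg, smul_neg, smul_smul]
  have h5 : (sn γ : K) * τ t * (sn γ : K) = τ t := by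
    calc (sn γ : K) * τ t * (sn γ : K) = (sn γ : K) * (sn γ : K) * τ t := by ring
      _ = τ t := by rw [s2, one_mul]
  rw [h5]
  abel

/-- the toral vectors of `LT` for a pair of short roots are fixed -/
theorem NKF_hs (hRTF : RTF_stmt) (hSGR : SGR_stmt) (hESF : ESF_stmt) (hACS : ACS_stmt) (hLST : LST_stmt) {K : Type}
    [Field K] (τ : K ≃+* K) (hτ : ∀ x, τ (τ x) = x) (g : Lm C6 K ≃ₗ[K] Lm C6 K) (hg : g ∈ GS τ)
    (hfix : ∀ a : Lm C6 K, ExS τ a → ∃ κ : K, g a = κ • a) (γ : Fin 6 → ℤ) (hγ : SR γ) (t : K) :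
    g (t • ht C6 γ + τ t • ht C6 (pv γ)) = (t • ht C6 γ + τ t • ht C6 (pv γ) : Lm C6 K) := by
  have hcA : Au C6 g := ((hSGR K τ hτ).2.2.2.2.2 g hg).2.1
  have hn : SR (-γ) := by
    refine ⟨neg_root C6 hγ.1, ?_⟩
    rw [hRTF.2.2.2.1]
    exact fun h => hγ.2 (neg_injective h)
  have h1 := NKF_br hRTF τ γ hγ t
  have h2 := hcA.br (t • E C6 γ + ((sn γ : K) * τ t) • E C6 (pv γ) : Lm C6 K)
    ((1 : K) • E C6 (-γ) + ((sn (-γ) : K) * τ 1) • E C6 (pv (-γ)))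
  rw [NKF_sh hRTF hSGR hESF hACS hLST τ hτ g hg hfix γ hγ t, NKF_sh hRTF hSGR hESF hACS hLST τ hτ g hg hfix (-γ) hn 1,
    h1, map_neg] at h2
  exact neg_injective h2

/-- the toral vectors of `LT` are fixed -/
theorem NKF_tor (hRTF : RTF_stmt) (hSGR : SGR_stmt) (hESF : ESF_stmt) (hACS : ACS_stmt) (hLST : LST_stmt) {K : Type}
    [Field K] (τ : K ≃+* K) (hτ : ∀ x, τ (τ x) = x) (g : Lm C6 K ≃ₗ[K] Lm C6 K) (hg : g ∈ GS τ)
    (hfix : ∀ a : Lm C6 K, ExS τ a → ∃ κ : K, g a = κ • a) (h : Fin 6 → K) (hh : ∀ i, τ (h (pn i)) = h i) :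
    g ((h, 0) : Lm C6 K) = (h, 0) := by
  have hsr := hRTF.2.2.2.2.1
  have h5 : h 5 = τ (h 0) := (hh 5).symm
  have h4 : h 4 = τ (h 2) := (hh 4).symm
  have r0 : ip C6 (sr 0) (sr 0) = 2 := ip_sr_self C6 0
  have r1 : ip C6 (sr 1) (sr 1) = 2 := ip_sr_self C6 1
  have r2 : ip C6 (sr 2) (sr 2) = 2 := ip_sr_self C6 2
  have r3 : ip C6 (sr 3) (sr 3) = 2 := ip_sr_self C6 3
  have p0 : pv (sr 0) = sr 5 := hsr 0
  have p1 : pv (sr 1) = sr 1 := hsr 1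
  have p2 : pv (sr 2) = sr 4 := hsr 2
  have p3 : pv (sr 3) = sr 3 := hsr 3
  have n0 : (sr 5 : Fin 6 → ℤ) ≠ sr 0 := by decide
  have n2 : (sr 4 : Fin 6 → ℤ) ≠ sr 2 := by decide
  have a0 := NKF_hs hRTF hSGR hESF hACS hLST τ hτ g hg hfix (sr 0) ⟨r0, by rw [p0]; exact n0⟩ (h 0)
  have a2 := NKF_hs hRTF hSGR hESF hACS hLST τ hτ g hg hfix (sr 2) ⟨r2, by rw [p2]; exact n2⟩ (h 2)
  have a1 := NKF_hl hRTF hSGR hESF hLST τ hτ g hg hfix (sr 1) ⟨r1, p1⟩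
  have a3 := NKF_hl hRTF hSGR hESF hLST τ hτ g hg hfix (sr 3) ⟨r3, p3⟩
  rw [p0, ← h5] at a0
  rw [p2, ← h4] at a2
  have key : ((h, 0) : Lm C6 K) = h 1 • ht C6 (sr 1) + h 3 • ht C6 (sr 3) +
      (h 0 • ht C6 (sr 0) + h 5 • ht C6 (sr 5)) + (h 2 • ht C6 (sr 2) + h 4 • ht C6 (sr 4)) := by
    rw [NRM_sum C6 K h, Fin.sum_univ_six]
    abel
  rw [key, map_add, map_add, map_add, a0, a2, map_smul, map_smul, a1, a3]

theorem NKF_cfsi {K : Type} [Field K] (τ : K ≃+* K) (v : Lm C6 K) (γ : Fin 6 → ℤ) (hγ : ip C6 γ γ = 2) :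
    cf (si τ v) γ = (sn γ : K) * τ (cf v (pv γ)) := by
  unfold si
  rw [cf, dif_pos hγ]

/-- the vectors of `LT` are fixed, by induction on the support -/
theorem NKF_ind (hRTF : RTF_stmt) (hSIG : SIG_stmt) (hSGR : SGR_stmt) (hESF : ESF_stmt) (hACS : ACS_stmt)
    (hLST : LST_stmt) {K : Type} [Field K] (τ : K ≃+* K) (hτ : ∀ x, τ (τ x) = x) (g : Lm C6 K ≃ₗ[K] Lm C6 K)
    (hg : g ∈ GS τ) (hfix : ∀ a : Lm C6 K, ExS τ a → ∃ κ : K, g a = κ • a) (n : ℕ) :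
    ∀ v : Lm C6 K, si τ v = v → {γ : Rt C6 | cf v γ.1 ≠ 0}.ncard ≤ n → g v = v := by
  obtain ⟨S1, S2, -, -, -, S6, -⟩ := hSIG K τ hτ
  induction n with
  | zero =>
    intro v hv hc
    have h1 : {γ : Rt C6 | cf v γ.1 ≠ 0} = ∅ := by
      rw [← Set.ncard_eq_zero (Set.toFinite _)]
      omega
    have h2 : ∀ γ, ip C6 γ γ = 2 → cf v γ = 0 := by
      intro γ hγ
      by_contra h3
      have h4 : (⟨γ, hγ⟩ : Rt C6) ∈ {γ : Rt C6 | cf v γ.1 ≠ 0} := h3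
      rw [h1] at h4
      exact h4
    have h3 : v = (v.1, 0) := Lm_ext C6 rfl fun γ hγ => by rw [h2 γ hγ, cf_mk_zero]
    rw [h3]
    refine NKF_tor hRTF hSGR hESF hACS hLST τ hτ g hg hfix v.1 fun i => ?_
    exact congrFun (congrArg Prod.fst hv) i
  | succ n ih =>
    intro v hv hc
    by_cases h0 : {γ : Rt C6 | cf v γ.1 ≠ 0} = ∅
    · refine ih v hv ?_
      rw [h0, Set.ncard_empty]
      exact Nat.zero_le _
    obtain ⟨⟨γ, hγ⟩, hγ0⟩ := Set.nonempty_iff_ne_empty.2 h0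
    have hγ0' : cf v γ ≠ 0 := hγ0
    have hcv : ∀ δ, ip C6 δ δ = 2 → cf v δ = (sn δ : K) * τ (cf v (pv δ)) := by
      intro δ hδ
      rw [← NKF_cfsi τ v δ hδ, hv]
    have hp : ip C6 (pv γ) (pv γ) = 2 := by rw [hRTF.1, hγ]
    have s2 : (sn γ : K) * (sn γ : K) = 1 := by
      rcases hRTF.2.2.2.2.2.2.1 γ with h4 | h4 <;> rw [h4] <;> norm_num
    -- it is enough to find a fixed vector with the same coefficient at `γ`
    have red : ∀ e : Lm C6 K, si τ e = e → g e = e → cf e γ = cf v γ →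
        (∀ δ, ip C6 δ δ = 2 → cf v δ = 0 → cf e δ = 0) → g v = v := by
      intro e he hge heγ heδ
      have h1 : si τ (v - e) = v - e := by
        have h2 := S1 (v - e) e
        rw [sub_add_cancel, hv, he] at h2
        exact (eq_sub_of_add_eq h2.symm)
      have h2 : {δ : Rt C6 | cf (v - e) δ.1 ≠ 0} ⊂ {δ : Rt C6 | cf v δ.1 ≠ 0} := by
        refine ⟨fun δ hδ => ?_, fun h3 => ?_⟩
        · intro h4
          apply hδ
          rw [cf_sub, h4, heδ δ.1 δ.2 h4, sub_zero]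
        · have h4 : (⟨γ, hγ⟩ : Rt C6) ∈ {δ : Rt C6 | cf (v - e) δ.1 ≠ 0} := h3 hγ0
          apply h4
          rw [cf_sub, heγ, sub_self]
      have h3 := Set.ncard_lt_ncard h2 (Set.toFinite _)
      have h4 := ih (v - e) h1 (by omega)
      rw [map_sub, hge] at h4
      exact sub_left_injective h4
    by_cases hl : pv γ = γ
    · have hL : LR γ := ⟨hγ, hl⟩
      have hs1 : sn γ = 1 := hRTF.2.2.2.2.2.2.2.2.2.2.1 γ hl
      have h1 : τ (cf v γ) = cf v γ := by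
        have h2 := hcv γ hγ
        rw [hl, hs1, Int.cast_one, one_mul] at h2
        exact h2.symm
      refine red (cf v γ • E C6 γ) ?_ ?_ ?_ ?_
      · rw [S2, S6 γ hγ, h1, hs1, hl, Int.cast_one, one_smul]
      · rw [map_smul, NKF_long hRTF hSGR hESF hLST τ hτ g hg hfix γ hL]
      · rw [cf_smul, cf_E C6 hγ, if_pos rfl, mul_one]
      · intro δ hδ h2
        rw [cf_smul, cf_E C6 hγ]
        split_ifs with h3
        · rw [h3] at h2
          exact absurd h2 hγ0'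
        · rw [mul_zero]
    · have hS : SR γ := ⟨hγ, hl⟩
      have hpp : pv (pv γ) = γ := hRTF.2.1 γ
      have hsp : sn (pv γ) = sn γ := hRTF.2.2.2.2.2.2.2.1 γ
      have hne : γ ≠ pv γ := fun h => hl h.symm
      have hτn : ∀ c : K, τ ((sn γ : K) * c) = (sn γ : K) * τ c := by
        intro c
        rw [map_mul]
        congr 1
        rcases hRTF.2.2.2.2.2.2.1 γ with h4 | h4 <;> rw [h4] <;> simp
      refine red (cf v γ • E C6 γ + ((sn γ : K) * τ (cf v γ)) • E C6 (pv γ)) ?_ ?_ ?_ ?_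
      · rw [S1, S2, S2, S6 γ hγ, S6 _ hp, hpp, hsp, hτn, hτ, smul_smul, smul_smul, mul_comm (τ (cf v γ)) (sn γ : K)]
        have h3 : (sn γ : K) * cf v γ * (sn γ : K) = cf v γ := by
          calc (sn γ : K) * cf v γ * (sn γ : K) = (sn γ : K) * (sn γ : K) * cf v γ := by ring
            _ = cf v γ := by rw [s2, one_mul]
        rw [h3, add_comm]
      · exact NKF_sh hRTF hSGR hESF hACS hLST τ hτ g hg hfix γ hS (cf v γ)
      · rw [cf_add, cf_smul, cf_smul, cf_E C6 hγ, cf_E C6 hp, if_pos rfl, if_neg hne, mul_one, mul_zero, add_zero]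
      · intro δ hδ h2
        rw [cf_add, cf_smul, cf_smul, cf_E C6 hγ, cf_E C6 hp]
        have h3 : δ ≠ γ := by
          intro h4
          rw [h4] at h2
          exact hγ0' h2
        have h4 : δ ≠ pv γ := by
          intro h5
          rw [h5, hcv _ hp, hpp, hsp] at h2
          rcases mul_eq_zero.1 h2 with h6 | h6
          · rw [h6, zero_mul] at s2
            exact zero_ne_one s2
          · exact hγ0' ((map_eq_zero_iff τ τ.injective).1 h6)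
        rw [if_neg h3, if_neg h4, mul_zero, mul_zero, add_zero]

/-- NKF -/
theorem NKF (hRTF : RTF_stmt) (hSIG : SIG_stmt) (hSGR : SGR_stmt) (hESF : ESF_stmt) (hGFX : GFX_stmt) (hACS : ACS_stmt) (hLST : LST_stmt) : NKF_stmt := by
  intro K _ τ hτ c hc hfix
  obtain ⟨g, hg, hgc⟩ := hc
  have hE := hESF K τ hτ
  have h1 : ∀ a : Lm C6 K, ExS τ a → ∃ κ : K, g a = κ • a := by
    intro a ha
    obtain ⟨κ, hκ⟩ := hfix ⟨a, (hE.2 a ha).2.2.1⟩ ha
    exact ⟨κ, by rw [← hκ, hgc]⟩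
  apply Equiv.ext
  intro v
  apply Subtype.ext
  rw [hgc]
  exact NKF_ind hRTF hSIG hSGR hESF hACS hLST τ hτ g hg h1 _ v v.2 le_rfl

end Pool.Agent.EXT
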