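import Pool.Agent.helper17.EXT.Spec

/-!
# Row ft:NRS of project EXT (MP_561ff4_al): the relative reflections
-/

set_option autoImplicit false

open Finset

namespace Pool.Agent.EXT

open Pool.Agent.EXC

/-- `x_α(1) x_{-α}(1) x_α(1)`, `α = α_i`, acts as a reflection (the computation of NRF, helper49) -/
theorem NRS_ref {n : ℕ} {C : Matrix (Fin n) (Fin n) ℤ} [IsC C] {F : Type} [Field F] (i : Fin n)
    (g1 g2 : Lm C F ≃ₗ[F] Lm C F) (f1 : ∀ v, g1 v = xe C (E C (sr i)) 1 v) (f2 : ∀ v, g2 v = xe C (E C (-sr i)) 1 v)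
    (γ : Fin n → ℤ) (hγ : ip C γ γ = 2) :
    ∃ s : ℤ, (s = 1 ∨ s = -1) ∧ g1 (g2 (g1 (E C γ))) = (s : F) • (E C (rf C i γ) : Lm C F) := by
  have hα : ip C (sr i) (sr i) = 2 := ip_sr_self C i
  have hnα : ip C (-sr i) (-sr i) = 2 := neg_root C hα
  obtain ⟨a0, a1, a2, -, a4⟩ := f_ACT n C F (sr i) 1 hα
  obtain ⟨b0, b1, b2, -, b4⟩ := f_ACT n C F (-sr i) 1 hnα
  simp only [one_mul, one_smul, one_pow] at a0 a1 a2 a4 b0 b1 b2 b4
  obtain ⟨l1, l2⟩ := ip_abs_le (C := C) hα hγ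
  have hc : ip C γ (sr i) = ip C (sr i) γ := ip_comm C _ _
  have hss : sg C (sr i) (sr i) = -1 := sg_self C hα
  have hsq : (sg C (sr i) γ : F) * (sg C (sr i) γ : F) = 1 := sg_sq C _ _
  have hneg : ip C (-sr i) γ = -ip C (sr i) γ := ip_neg_left C _ _
  obtain h | h | h | h | h : ip C (sr i) γ = -2 ∨ ip C (sr i) γ = -1 ∨ ip C (sr i) γ = 0 ∨ ip C (sr i) γ = 1 ∨
      ip C (sr i) γ = 2 := by omega
  · -- `γ = -α`
    have hγ' : γ = -sr i := eq_neg_of_ip_eq_neg_two hα hγ h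
    subst hγ'
    refine ⟨1, Or.inl rfl, ?_⟩
    have hr : rf C i (-sr i) = sr i := by
      rw [rf, hc, h]
      funext k
      simp only [Pi.sub_apply, Pi.neg_apply, Pi.smul_apply, smul_eq_mul]
      ring
    rw [hr, Int.cast_one, one_smul]
    have c1 : g1 (E C (-sr i)) = (E C (-sr i) - ht C (sr i) + E C (sr i) : Lm C F) := by rw [f1, a2]
    have c2 : g2 (E C (-sr i)) = (E C (-sr i) : Lm C F) := by rw [f2, b0 _ hnα (by rw [hnα]; norm_num)]
    have c3 : g2 (ht C (sr i)) = (ht C (sr i) + (2 : F) • E C (-sr i) : Lm C F) := by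
      rw [f2, b4, ip_neg_left, hα]
      push_cast
      rw [neg_smul, sub_neg_eq_add]
    have c4 : g2 (E C (sr i)) = (E C (sr i) + ht C (sr i) + E C (-sr i) : Lm C F) := by
      have := b2
      rw [neg_neg, ht_neg, sub_neg_eq_add] at this
      rw [f2, this]
    have c5 : g1 (E C (sr i)) = (E C (sr i) : Lm C F) := by rw [f1, a0 _ hα (by rw [hα]; norm_num)]
    rw [c1, map_add, map_sub, c2, c3, c4]
    have : (E C (-sr i) - (ht C (sr i) + (2 : F) • E C (-sr i)) + (E C (sr i) + ht C (sr i) + E C (-sr i)) : Lm C F) = E C (sr i) := by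
      rw [two_smul]
      abel
    rw [this, c5]
  · -- `m = -1`
    refine ⟨sg C (sr i) γ, sg_cases C _ _, ?_⟩
    have hr : rf C i γ = sr i + γ := by
      rw [rf, hc, h]
      funext k
      simp only [Pi.sub_apply, Pi.add_apply, Pi.smul_apply, smul_eq_mul]
      ring
    have hroot : ip C (sr i + γ) (sr i + γ) = 2 := (add_root_iff hα hγ).2 h
    rw [hr]
    have c1 : g1 (E C γ) = (E C γ + (sg C (sr i) γ : F) • E C (sr i + γ) : Lm C F) := by rw [f1, a1 _ hγ h]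
    have c2 : g2 (E C γ) = (E C γ : Lm C F) := by rw [f2, b0 _ hγ (by rw [hneg, h]; norm_num)]
    have c3 : g2 (E C (sr i + γ)) = (E C (sr i + γ) - (sg C (sr i) γ : F) • E C γ : Lm C F) := by
      have k1 : ip C (-sr i) (sr i + γ) = -1 := by
        rw [ip_neg_left, ip_add_right, hα, h]; norm_num
      have k2 : -sr i + (sr i + γ) = γ := by abel
      rw [f2, b1 _ hroot k1, k2, sg_neg_left, sg_add_right, hss]
      push_cast
      rw [neg_one_mul, neg_smul, ← sub_eq_add_neg]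
    have c5 : g1 (E C (sr i + γ)) = (E C (sr i + γ) : Lm C F) := by
      rw [f1, a0 _ hroot (by rw [ip_add_right, hα, h]; norm_num)]
    rw [c1, map_add, map_smul, c2, c3]
    have : (E C γ + (sg C (sr i) γ : F) • (E C (sr i + γ) - (sg C (sr i) γ : F) • E C γ) : Lm C F) =
        (sg C (sr i) γ : F) • E C (sr i + γ) := by
      rw [smul_sub, smul_smul, hsq, one_smul]
      abel
    rw [this, map_smul, c5]
  · -- `m = 0`
    refine ⟨1, Or.inl rfl, ?_⟩
    have hr : rf C i γ = γ := by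
      rw [rf, hc, h, zero_smul, sub_zero]
    rw [hr, Int.cast_one, one_smul]
    have c1 : g1 (E C γ) = (E C γ : Lm C F) := by rw [f1, a0 _ hγ (by rw [h])]
    have c2 : g2 (E C γ) = (E C γ : Lm C F) := by rw [f2, b0 _ hγ (by rw [hneg, h]; norm_num)]
    rw [c1, c2, c1]
  · -- `m = 1`
    refine ⟨sg C (sr i) γ, sg_cases C _ _, ?_⟩
    have hr : rf C i γ = -sr i + γ := by
      rw [rf, hc, h, one_smul]
      abel
    have hroot : ip C (-sr i + γ) (-sr i + γ) = 2 := (add_root_iff hnα hγ).2 (by rw [hneg, h])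
    rw [hr]
    have c1 : g1 (E C γ) = (E C γ : Lm C F) := by rw [f1, a0 _ hγ (by rw [h]; norm_num)]
    have c2 : g2 (E C γ) = (E C γ + (sg C (sr i) γ : F) • E C (-sr i + γ) : Lm C F) := by
      rw [f2, b1 _ hγ (by rw [hneg, h]), sg_neg_left]
    have c3 : g1 (E C (-sr i + γ)) = (E C (-sr i + γ) - (sg C (sr i) γ : F) • E C γ : Lm C F) := by
      have k1 : ip C (sr i) (-sr i + γ) = -1 := by
        rw [ip_add_right, ip_neg_right, hα, h]; norm_num
      have k2 : sr i + (-sr i + γ) = γ := by abel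
      rw [f1, a1 _ hroot k1, k2, sg_add_right, sg_neg_right, hss]
      push_cast
      rw [neg_one_mul, neg_smul, ← sub_eq_add_neg]
    rw [c1, c2, map_add, map_smul, c1, c3]
    rw [smul_sub, smul_smul, hsq, one_smul]
    abel
  · -- `γ = α`
    have hγ' : sr i = γ := eq_of_ip_eq_two hα hγ h
    subst hγ'
    refine ⟨1, Or.inl rfl, ?_⟩
    have hr : rf C i (sr i) = -sr i := by
      rw [rf, hα]
      funext k
      simp only [Pi.sub_apply, Pi.neg_apply, Pi.smul_apply, smul_eq_mul]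
      ring
    rw [hr, Int.cast_one, one_smul]
    have c1 : g1 (E C (-sr i)) = (E C (-sr i) - ht C (sr i) + E C (sr i) : Lm C F) := by rw [f1, a2]
    have c3 : g1 (ht C (sr i)) = (ht C (sr i) - (2 : F) • E C (sr i) : Lm C F) := by
      rw [f1, a4, hα]
      push_cast
      rfl
    have c4 : g2 (E C (sr i)) = (E C (sr i) + ht C (sr i) + E C (-sr i) : Lm C F) := by
      have := b2
      rw [neg_neg, ht_neg, sub_neg_eq_add] at this
      rw [f2, this]
    have c5 : g1 (E C (sr i)) = (E C (sr i) : Lm C F) := by rw [f1, a0 _ hα (by rw [hα]; norm_num)]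
    rw [c5, c4, map_add, map_add, c5, c3, c1, two_smul]
    abel

theorem NRS_or : ∀ i : Fin 6, pn i ≠ i → ip C6 (sr i) (sr (pn i)) = 0 := by decide +kernel

/-- NRS -/
theorem NRS (hRTF : RTF_stmt) (hSGR : SGR_stmt) : NRS_stmt := by
  intro K _ τ hτ i
  obtain ⟨-, -, -, hneg, hsr, -, -, -, hsn, hs1, -⟩ := hRTF
  have hα : ip C6 (sr i) (sr i) = 2 := ip_sr_self C6 i
  have hnα : ip C6 (-sr i) (-sr i) = 2 := neg_root C6 hα
  have hβ : ip C6 (sr (pn i)) (sr (pn i)) = 2 := ip_sr_self C6 _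
  have hnβ : ip C6 (-sr (pn i)) (-sr (pn i)) = 2 := neg_root C6 hβ
  have h1 : τ 1 = 1 := map_one τ
  by_cases hi : pn i = i
  · have hL : LR (sr i) := ⟨hα, by rw [hsr, hi]⟩
    have hLn : LR (-sr i) := ⟨hnα, by rw [hneg, hsr, hi]⟩
    obtain ⟨g1, -, e1⟩ := (hSGR K τ hτ).2.1 (sr i) 1 hL h1
    obtain ⟨g2, -, e2⟩ := (hSGR K τ hτ).2.1 (-sr i) 1 hLn h1
    have m1 : g1 ∈ GP τ := Subgroup.subset_closure ⟨i, 1, Or.inl (Or.inl ⟨hi, h1, e1⟩)⟩
    have m2 : g2 ∈ GP τ := Subgroup.subset_closure ⟨i, 1, Or.inr (Or.inl ⟨hi, h1, e2⟩)⟩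
    refine ⟨g1 * g2 * g1, mul_mem (mul_mem m1 m2) m1, fun γ hγ => ?_⟩
    have hw : wS i γ = rf C6 i γ := if_pos hi
    rw [hw]
    exact NRS_ref i g1 g2 e1 e2 γ hγ
  · have hne : sr (pn i) ≠ (sr i : Fin 6 → ℤ) := by
      intro h
      have h2 := congrFun h i
      unfold sr at h2
      simp [Ne.symm hi] at h2
    have hS : SR (sr i) := ⟨hα, by rw [hsr]; exact hne⟩
    have hSn : SR (-sr i) := ⟨hnα, by rw [hneg, hsr]; exact fun h => hne (neg_injective h)⟩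
    obtain ⟨G1, -, E1⟩ := (hSGR K τ hτ).1 (sr i) 1 hS
    obtain ⟨G2, -, E2⟩ := (hSGR K τ hτ).1 (-sr i) 1 hSn
    have m1 : G1 ∈ GP τ := Subgroup.subset_closure ⟨i, 1, Or.inl (Or.inr ⟨hi, E1⟩)⟩
    have m2 : G2 ∈ GP τ := Subgroup.subset_closure ⟨i, 1, Or.inr (Or.inr ⟨hi, E2⟩)⟩
    obtain ⟨-, hE, hX, -⟩ := f_EXF 6 C6 K (f_NBR 6 C6 1 th ![0, 2, 3, 4, 5] f_DE6.2).1
    obtain ⟨a, -, ea⟩ := (hX _ (hE _ hα)).2.2.2.2.1 1
    obtain ⟨a', -, ea'⟩ := (hX _ (hE _ hnα)).2.2.2.2.1 1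
    obtain ⟨b, -, eb⟩ := (hX _ (hE _ hβ)).2.2.2.2.1 1
    obtain ⟨b', -, eb'⟩ := (hX _ (hE _ hnβ)).2.2.2.2.1 1
    have k1 : ∀ v, G1 v = a (b v) := by
      intro v
      rw [E1 v, hsr, hs1, h1, Int.cast_one, one_mul, ea, eb]
    have k2 : ∀ v, G2 v = a' (b' v) := by
      intro v
      rw [E2 v, hneg, hsr, hsn, hs1, h1, Int.cast_one, one_mul, ea', eb']
    have h0 := NRS_or i hi
    have c1 : ∀ v, b (a v) = a (b v) := by
      intro v
      rw [eb, ea, ea, eb]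
      exact (f_COL 6 C6 K (sr (pn i)) (sr i) hβ hα).2 (by rw [ip_comm, h0]) 1 1 v
    have c2 : ∀ v, b (a' v) = a' (b v) := by
      intro v
      rw [eb, ea', ea', eb]
      exact (f_COL 6 C6 K (sr (pn i)) (-sr i) hβ hnα).2 (by rw [ip_neg_right, ip_comm, h0, neg_zero]) 1 1 v
    have c3 : ∀ v, b' (a v) = a (b' v) := by
      intro v
      rw [eb', ea, ea, eb']
      exact (f_COL 6 C6 K (-sr (pn i)) (sr i) hnβ hα).2 (by rw [ip_neg_left, ip_comm, h0, neg_zero]) 1 1 v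
    refine ⟨G1 * G2 * G1, mul_mem (mul_mem m1 m2) m1, fun γ hγ => ?_⟩
    have hw : wS i γ = rf C6 i (rf C6 (pn i) γ) := if_neg hi
    rw [hw]
    obtain ⟨s, hs, q1⟩ := NRS_ref (pn i) b b' eb eb' γ hγ
    have hγ' : ip C6 (rf C6 (pn i) γ) (rf C6 (pn i) γ) = 2 := by
      rw [(f_RFL 6 C6 (pn i) γ γ).1, hγ]
    obtain ⟨s', hs', q2⟩ := NRS_ref i a a' ea ea' _ hγ'
    refine ⟨s * s', ?_, ?_⟩
    · rcases hs with rfl | rfl <;> rcases hs' with rfl | rfl <;> decide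
    · change G1 (G2 (G1 (E C6 γ))) = _
      rw [k1, k2, k1, c3, c2, c1, q1, map_smul, map_smul, map_smul, q2, smul_smul]
      push_cast
      rfl

end Pool.Agent.EXT
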