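import Pool.Agent.helper17.EXT.SpecJ

set_option autoImplicit false

open Finset

namespace Pool.Agent.EXT

open Pool.Agent.EXC

theorem JR3_add {K : Type} [Field K] (a : Lm C6 K) (t : K) (x y : Lm C6 K) :
    xe C6 a t (x + y) = xe C6 a t x + xe C6 a t y := by
  unfold xe
  rw [br_add_right, fm_add_right, smul_add, mul_add, add_smul]
  abel

theorem JR3_zero {K : Type} [Field K] (a : Lm C6 K) (x : Lm C6 K) : xe C6 a 0 x = x := by
  unfold xe
  rw [zero_smul, add_zero, zero_pow two_ne_zero, zero_mul, zero_smul, add_zero]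

theorem JR3_vv {K : Type} [Field K] (h2 : (2 : K) = 0) (v : Lm C6 K) : v + v = 0 := by
  have h1 : (2 : K) • v = v + v := two_smul K v
  rw [← h1, h2, zero_smul]

theorem JR3_sg {K : Type} [Field K] (h2 : (2 : K) = 0) (s : ℤ) (h : s = 1 ∨ s = -1) : ((s : ℤ) : K) = 1 := by
  rcases h with rfl | rfl
  · simp
  · push_cast
    have h1 : (1 : K) + 1 = 0 := by rw [one_add_one_eq_two, h2]
    exact neg_eq_of_add_eq_zero_left h1

theorem JR3_r1 : ip C6 (sr 1) th = 1 := by decide +kernel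
theorem JR3_r2 : ip C6 (sr 1) (th - sr 1) = -1 := by decide +kernel
theorem JR3_r3 : ip C6 (-sr 1) th = -1 := by decide +kernel
theorem JR3_r4 : ip C6 (-sr 1) (th - sr 1) = 1 := by decide +kernel
theorem JR3_r5 : sg C6 (sr 1) (th - sr 1) = 1 ∨ sg C6 (sr 1) (th - sr 1) = -1 := by decide +kernel
theorem JR3_r6 : sg C6 (-sr 1) th = 1 ∨ sg C6 (-sr 1) th = -1 := by decide +kernel
theorem JR3_r7 : ip C6 th th = 2 ∧ ip C6 (th - sr 1) (th - sr 1) = 2 := by decide +kernel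
theorem JR3_r8 : 0 ≤ ip C6 eta (sr 1) ∧ 0 ≤ ip C6 eta (-sr 1) ∧ 0 ≤ ip C6 et2 (sr 1) ∧ 0 ≤ ip C6 et2 (-sr 1) := by
  decide +kernel
theorem JR3_r9 : (ip C6 eta eta = 2 ∧ pv eta ≠ eta) ∧ ip C6 et2 et2 = 2 ∧ pv et2 ≠ et2 := by decide +kernel
theorem JR3_r10 : ip C6 (sr 1) (sr 1) = 2 ∧ ip C6 (-sr 1) (-sr 1) = 2 := by decide +kernel
theorem JR3_r11 : pv th = th ∧ pv (th - sr 1) = th - sr 1 ∧ pv (sr 1) = sr 1 ∧ pv (-sr 1) = -sr 1 := by
  decide +kernel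

/-- the action of `x_{α₁}(1)`, `x_{-α₁}(1)` on the two vectors -/
theorem JR3_act {K : Type} [Field K] (h2 : (2 : K) = 0) :
    xe C6 (E C6 (sr 1)) 1 (E C6 th) = (E C6 th : Lm C6 K) ∧
    xe C6 (E C6 (sr 1)) 1 (E C6 (th - sr 1)) = (E C6 (th - sr 1) + E C6 th : Lm C6 K) ∧
    xe C6 (E C6 (-sr 1)) 1 (E C6 th) = (E C6 th + E C6 (th - sr 1) : Lm C6 K) ∧
    xe C6 (E C6 (-sr 1)) 1 (E C6 (th - sr 1)) = (E C6 (th - sr 1) : Lm C6 K) := by
  obtain ⟨A1, A2, -⟩ := f_ACT 6 C6 K (sr 1) 1 JR3_r10.1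
  obtain ⟨B1, B2, -⟩ := f_ACT 6 C6 K (-sr 1) 1 JR3_r10.2
  refine ⟨A1 th JR3_r7.1 (by rw [JR3_r1]; norm_num), ?_, ?_, B1 _ JR3_r7.2 (by rw [JR3_r4]; norm_num)⟩
  · rw [A2 _ JR3_r7.2 JR3_r2, JR3_sg h2 _ JR3_r5, mul_one, one_smul]
    have h : sr 1 + (th - sr 1) = th := by abel
    rw [h]
  · rw [B2 _ JR3_r7.1 JR3_r3, JR3_sg h2 _ JR3_r6, mul_one, one_smul]
    have h : -sr 1 + th = th - sr 1 := by abel
    rw [h]

/-- a permutation of order three on three points -/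
theorem JR3_ord {X : Type} (Z : Equiv.Perm X) (u w v : X) (h1 : Z u = v) (h2 : Z v = w) (h3 : Z w = u)
    (huv : v ≠ u) (huw : w ≠ u) (m : ℕ) (hm : (Z ^ m) u = u) : 3 ∣ m := by
  have h4 : (Z ^ 3) u = u := by
    rw [pow_succ, pow_succ, pow_one, Equiv.Perm.mul_apply, Equiv.Perm.mul_apply, h1, h2, h3]
  have h5 : ∀ q, ((Z ^ 3) ^ q) u = u := by
    intro q
    induction q with
    | zero => rw [pow_zero]; rfl
    | succ q ih => rw [pow_succ, Equiv.Perm.mul_apply, h4, ih]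
  have h6 : m % 3 + 3 * (m / 3) = m := Nat.mod_add_div m 3
  rw [← h6, pow_add, pow_mul, Equiv.Perm.mul_apply, h5] at hm
  have h7 : m % 3 < 3 := Nat.mod_lt _ (by norm_num)
  rcases Nat.lt_or_ge (m % 3) 1 with h | h
  · omega
  · exfalso
    rcases Nat.lt_or_ge (m % 3) 2 with h' | h'
    · have h8 : m % 3 = 1 := by omega
      rw [h8, pow_one, h1] at hm
      exact huv hm
    · have h8 : m % 3 = 2 := by omega
      rw [h8, pow_succ, pow_one, Equiv.Perm.mul_apply, h1, h2] at hm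
      exact huw hm

/-- a permutation induced by a linear map which commutes with the map which induces the other -/
theorem JR3_cm {K : Type} [Field K] (f b : Equiv.Perm (LT (RingEquiv.refl K))) (h k : Lm C6 K ≃ₗ[K] Lm C6 K)
    (hf : ∀ v : LT (RingEquiv.refl K), (f v : Lm C6 K) = h v) (hb : ∀ v : LT (RingEquiv.refl K), (b v : Lm C6 K) = k v)
    (hc : k * h = h * k) : Commute f b := by
  apply Equiv.ext
  intro v
  apply Subtype.ext
  rw [Equiv.Perm.mul_apply, Equiv.Perm.mul_apply, hf, hb, hb, hf]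
  exact (congrArg (fun y : Lm C6 K ≃ₗ[K] Lm C6 K => y (v : Lm C6 K)) hc).symm

/-- `x_{±α₁}` commutes with the elements of `X_η X_{η - α₄}` -/
theorem JR3_com (hJCM : JCM_stmt) {K : Type} [Field K] (h2 : (2 : K) = 0) (β : Fin 6 → ℤ) (hβ : LR β)
    (he : 0 ≤ ip C6 eta β) (he2 : 0 ≤ ip C6 et2 β) (h : Lm C6 K ≃ₗ[K] Lm C6 K) (hh : IsX C6 (E C6 β) 1 h)
    (f b : Equiv.Perm (LT (RingEquiv.refl K))) (hf : ∀ v : LT (RingEquiv.refl K), (f v : Lm C6 K) = h v) (hb : InB b) :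
    Commute f b := by
  obtain ⟨b1, b2, ⟨t1, k1, hk1, hb1⟩, ⟨t2, k2, hk2, hb2⟩, rfl⟩ := hb
  have c1 : Commute f b1 := by
    refine JR3_cm f b1 h k1 hf (fun v => ?_) ((hJCM K h2).2 eta β JR3_r9.1 hβ he t1 1 k1 h hk1 hh)
    exact hb1 v
  have c2 : Commute f b2 := by
    refine JR3_cm f b2 h k2 hf (fun v => ?_) ((hJCM K h2).2 et2 β JR3_r9.2 hβ he2 t2 1 k2 h hk2 hh)
    exact hb2 v
  exact c1.mul_right c2

/-- JR3 -/
theorem JR3 (hRTF : RTF_stmt) (hSGR : SGR_stmt) (hESF : ESF_stmt) (hGFX : GFX_stmt) (hUNF : UNF_stmt) (hGRQ : GRQ_stmt) (hFXF : FXF_stmt) (hJCM : JCM_stmt) (hJSH : JSH_stmt) : JR3_stmt := by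
  intro K _ _ hK x hxx H
  have hτ : ∀ y : K, RingEquiv.refl K (RingEquiv.refl K y) = y := fun _ => rfl
  obtain ⟨E1, E2⟩ := hESF K (RingEquiv.refl K) hτ
  have hLth : LR th := ⟨JR3_r7.1, JR3_r11.1⟩
  have hL3 : LR (th - sr 1) := ⟨JR3_r7.2, JR3_r11.2.1⟩
  have hL1 : LR (sr 1) := ⟨JR3_r10.1, JR3_r11.2.2.1⟩
  have hL2 : LR (-sr 1) := ⟨JR3_r10.2, JR3_r11.2.2.2⟩
  have hu : (E C6 th : Lm C6 K) ∈ LT (RingEquiv.refl K) := (E2 _ (E1 th hLth)).2.2.1
  have hw : (E C6 (th - sr 1) : Lm C6 K) ∈ LT (RingEquiv.refl K) := (E2 _ (E1 _ hL3)).2.2.1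
  obtain ⟨-, G2⟩ := hGFX K (RingEquiv.refl K) hτ
  obtain ⟨f1, hf1, hf1x⟩ := (G2 _ (E1 _ hL1)).1 1 rfl
  obtain ⟨f2, hf2, hf2x⟩ := (G2 _ (E1 _ hL2)).1 1 rfl
  obtain ⟨l1, -, hl1⟩ := (hSGR K (RingEquiv.refl K) hτ).2.1 _ 1 hL1 rfl
  obtain ⟨l2, -, hl2⟩ := (hSGR K (RingEquiv.refl K) hτ).2.1 _ 1 hL2 rfl
  obtain ⟨a1, a2, a3, a4⟩ := JR3_act (K := K) hK
  obtain ⟨U, hU⟩ : ∃ U : LT (RingEquiv.refl K), (U : Lm C6 K) = E C6 th := ⟨⟨_, hu⟩, rfl⟩
  obtain ⟨V, hV⟩ : ∃ V : LT (RingEquiv.refl K), (V : Lm C6 K) = E C6 (th - sr 1) := ⟨⟨_, hw⟩, rfl⟩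
  obtain ⟨UV, hUVd⟩ : ∃ UV : LT (RingEquiv.refl K), UV = f1 V := ⟨_, rfl⟩
  have hUV : (UV : Lm C6 K) = E C6 (th - sr 1) + E C6 th := by rw [hUVd, hf1x V, hV, a2]
  have hvv := JR3_vv (K := K) hK
  -- the action of g = f1 f2
  have g1 : f1 (f2 U) = V := by
    apply Subtype.ext
    rw [hf1x, hf2x, hU, a3, JR3_add, a1, a2, hV, add_comm (E C6 (th - sr 1) : Lm C6 K) (E C6 th), ← add_assoc, hvv,
      zero_add]
  have g2 : f1 (f2 V) = UV := by
    have h1 : f2 V = V := by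
      apply Subtype.ext
      rw [hf2x, hV, a4]
    rw [h1, hUVd]
  have g3 : f1 (f2 UV) = U := by
    have h1 : f2 UV = U := by
      apply Subtype.ext
      rw [hf2x, hUV, JR3_add, a4, a3, hU, add_comm (E C6 th : Lm C6 K) (E C6 (th - sr 1)), ← add_assoc, hvv, zero_add]
    rw [h1]
    apply Subtype.ext
    rw [hf1x, hU, a1]
  obtain ⟨g, hg⟩ : ∃ g : GF (RingEquiv.refl K), g = ⟨f1, hf1⟩ * ⟨f2, hf2⟩ := ⟨_, rfl⟩
  have hgU : (g : Equiv.Perm (LT (RingEquiv.refl K))) U = V := by rw [hg]; exact g1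
  have hgV : (g : Equiv.Perm (LT (RingEquiv.refl K))) V = UV := by rw [hg]; exact g2
  have hgUV : (g : Equiv.Perm (LT (RingEquiv.refl K))) UV = U := by rw [hg]; exact g3
  -- g commutes with the elements of X_eta X_et2
  have hgc : ∀ y : GF (RingEquiv.refl K), InB (y : Equiv.Perm (LT (RingEquiv.refl K))) → g * y = y * g := by
    intro y hy
    have c1 : Commute f1 (y : Equiv.Perm (LT (RingEquiv.refl K))) :=
      JR3_com hJCM hK (sr 1) hL1 JR3_r8.1 JR3_r8.2.2.1 l1 hl1 f1 _ (fun v => (hf1x v).trans (hl1 v).symm) hy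
    have c2 : Commute f2 (y : Equiv.Perm (LT (RingEquiv.refl K))) :=
      JR3_com hJCM hK (-sr 1) hL2 JR3_r8.2.1 JR3_r8.2.2.2 l2 hl2 f2 _ (fun v => (hf2x v).trans (hl2 v).symm) hy
    apply Subtype.ext
    have c3 := c1.mul_left c2
    rw [hg]
    exact c3
  have hxa : ∀ a : GF (RingEquiv.refl K), x (x a) = a := fun a =>
    congrArg (fun y : MulAut (GF (RingEquiv.refl K)) => y a) hxx
  -- x g commutes with the elements of X_th X_{th - sr 1}
  have hxc : ∀ a : GF (RingEquiv.refl K), InA (a : Equiv.Perm (LT (RingEquiv.refl K))) → x g * a = a * x g := by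
    intro a ha
    have h1 := congrArg x (hgc (x a) (H a ha))
    rw [map_mul, map_mul, hxa] at h1
    exact h1
  have h10 : ∀ a : Lm C6 K, InX (RingEquiv.refl K) a (1 : Equiv.Perm (LT (RingEquiv.refl K))) := fun a =>
    ⟨0, rfl, fun v => (JR3_zero a (v : Lm C6 K)).symm⟩
  -- x g fixes the two vectors
  obtain ⟨k, hk, hkx⟩ := (x g).2
  have hfx : ∀ β, LR β → (∀ a : Equiv.Perm (LT (RingEquiv.refl K)), InX (RingEquiv.refl K) (E C6 β) a → InA a) →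
      k (E C6 β) = (E C6 β : Lm C6 K) := by
    intro β hβ hA
    obtain ⟨a, haG, ha⟩ := (G2 _ (E1 β hβ)).1 1 rfl
    have h1 : x g * ⟨a, haG⟩ = ⟨a, haG⟩ * x g := hxc ⟨a, haG⟩ (hA a ⟨1, rfl, ha⟩)
    have h2 := (G2 _ (E1 β hβ)).2.2.2.2 _ (x g).2 k hk hkx 1 a ha
    have h3 : ((x g : GF (RingEquiv.refl K)) : Equiv.Perm (LT (RingEquiv.refl K))) * a =
        a * ((x g : GF (RingEquiv.refl K)) : Equiv.Perm (LT (RingEquiv.refl K))) := congrArg Subtype.val h1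
    rw [h3, mul_inv_cancel_right] at h2
    have h4 := hUNF K (RingEquiv.refl K) hτ _ _ 1 a ((E2 _ (E1 β hβ)).2.2.2.1 k hk) (E1 β hβ) h2 ha
    rw [one_smul] at h4
    exact h4
  have hkU : k (E C6 th) = (E C6 th : Lm C6 K) :=
    hfx th hLth fun a ha => ⟨a, 1, ha, h10 _, (mul_one a).symm⟩
  have hkV : k (E C6 (th - sr 1)) = (E C6 (th - sr 1) : Lm C6 K) :=
    hfx (th - sr 1) hL3 fun a ha => ⟨1, a, h10 _, ha, (one_mul a).symm⟩
  have hxg : ∀ W : LT (RingEquiv.refl K), (W = U ∨ W = V ∨ W = UV) →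
      ((x g : GF (RingEquiv.refl K)) : Equiv.Perm (LT (RingEquiv.refl K))) W = W := by
    rintro W (rfl | rfl | rfl)
    · apply Subtype.ext
      rw [hkx, hU, hkU]
    · apply Subtype.ext
      rw [hkx, hV, hkV]
    · apply Subtype.ext
      rw [hkx, hUV, map_add, hkU, hkV]
  obtain ⟨Z, hZ⟩ : ∃ Z : GF (RingEquiv.refl K), Z = x g * g⁻¹ := ⟨_, rfl⟩
  have hZc : (Z : Equiv.Perm (LT (RingEquiv.refl K))) =
      ((x g : GF (RingEquiv.refl K)) : Equiv.Perm (LT (RingEquiv.refl K))) * (g : Equiv.Perm (LT (RingEquiv.refl K)))⁻¹ := by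
    rw [hZ]
    rfl
  have z1 : (Z : Equiv.Perm (LT (RingEquiv.refl K))) U = UV := by
    rw [hZc, Equiv.Perm.mul_apply, Equiv.Perm.inv_eq_iff_eq.2 hgUV.symm, hxg UV (Or.inr (Or.inr rfl))]
  have z2 : (Z : Equiv.Perm (LT (RingEquiv.refl K))) UV = V := by
    rw [hZc, Equiv.Perm.mul_apply, Equiv.Perm.inv_eq_iff_eq.2 hgV.symm, hxg V (Or.inr (Or.inl rfl))]
  have z3 : (Z : Equiv.Perm (LT (RingEquiv.refl K))) V = U := by
    rw [hZc, Equiv.Perm.mul_apply, Equiv.Perm.inv_eq_iff_eq.2 hgU.symm, hxg U (Or.inl rfl)]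
  have n1 : UV ≠ U := by
    intro h
    have h1 : (E C6 (th - sr 1) : Lm C6 K) + E C6 th = E C6 th := by rw [← hUV, h, hU]
    have h2 : (E C6 (th - sr 1) : Lm C6 K) = 0 := by simpa using h1
    exact E_ne_zero C6 JR3_r7.2 h2
  have n2 : V ≠ U := by
    intro h
    have h1 : UV = V := by rw [← hgV, h, hgU, h]
    exact n1 (h1.trans h)
  have hfin : Finite (GF (RingEquiv.refl K)) := inferInstance
  have key := hGRQ (GF (RingEquiv.refl K)) x g 3 1 (fun _ => 1) Z le_rfl (by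
      refine Subgroup.subset_closure ⟨0, ?_⟩
      change 1 * (x g * g⁻¹) * 1⁻¹ = Z
      rw [hZ]
      group) (by
      intro m hm
      have h1 : MulAut.conj (Z ^ m) = 1 := by rw [map_pow, hm]
      have h2 : ∀ y, Z ^ m * y = y * Z ^ m := by
        intro y
        have h3 : MulAut.conj (Z ^ m) y = y := by rw [h1]; rfl
        rw [MulAut.conj_apply] at h3
        calc Z ^ m * y = Z ^ m * y * (Z ^ m)⁻¹ * Z ^ m := by group
          _ = y * Z ^ m := by rw [h3]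
      have h4 : Z ^ m = 1 := (hFXF K (RingEquiv.refl K) hτ).2 _ h2
      refine JR3_ord (Z : Equiv.Perm (LT (RingEquiv.refl K))) U V UV z1 z2 z3 n1 n2 m ?_
      have h5 : (Z : Equiv.Perm (LT (RingEquiv.refl K))) ^ m = 1 := by
        have := congrArg (Subtype.val) h4
        simpa using this
      rw [h5]
      rfl)
  exact key

end Pool.Agent.EXT
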